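import Pool.Agent.H44BP.Exact

/-!
# MP_792a66_co: connected bipartite Turán numbers of paths

For all `k ≥ 5` and all `n` with `k ≤ 2n` the maximum number of edges of a connected spanning
subgraph of `K_{n,n}` without a path on `k` vertices is `⌊(k-1)/2⌋ (n-1) + 1`.
-/

set_option autoImplicit false

open Finset
open scoped Classical

namespace Pool.Agent.Results.MP_792a66_co.ExactValue

open H44BP

/-- The numbers of edges of the connected spanning subgraphs of `K_{n,n}` that contain no copy of
the path on `k` vertices. -/
def sizes (n k : ℕ) : Set ℕ :=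
  {e | ∃ G : SimpleGraph (Fin n ⊕ Fin n), G ≤ completeBipartiteGraph (Fin n) (Fin n) ∧
    G.Connected ∧ (SimpleGraph.pathGraph k).Free G ∧ e = G.edgeSet.ncard}

/-- The connected bipartite Turán number `ex_{b,c}(n, P_k)`. -/
noncomputable def exbc (n k : ℕ) : ℕ := sSup (sizes n k)

/-- the side of a vertex -/
def sde {n : ℕ} (v : Fin n ⊕ Fin n) : Bool := v.isLeft

lemma hside_of_le {n : ℕ} (G : SimpleGraph (Fin n ⊕ Fin n))
    (hG : G ≤ completeBipartiteGraph (Fin n) (Fin n)) : ∀ u v, G.Adj u v → sde u ≠ sde v := by
  intro u v h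
  have := hG h
  unfold sde
  rcases u with u | u <;> rcases v with v | v <;> simp_all [completeBipartiteGraph]

lemma Conn_of_connected {V : Type} [Fintype V] (G : SimpleGraph V) (hG : G.Connected) :
    Conn G (univ : Finset V) := by
  obtain ⟨v0⟩ := hG.nonempty
  refine ⟨⟨v0, mem_univ _⟩, ?_⟩
  intro T _ hTne hTneq
  obtain ⟨x, hx⟩ := hTne
  obtain ⟨y, hy⟩ : ∃ y, y ∉ T := by
    by_contra hcon
    push Not at hcon
    exact hTneq (Finset.eq_univ_iff_forall.2 hcon)
  obtain ⟨w⟩ := hG.preconnected x y
  obtain ⟨d, _, hd1, hd2⟩ := w.exists_boundary_dart (T : Set V) (by simpa using hx) (by simpa using hy)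
  exact ⟨d.fst, by simpa using hd1, d.snd, by simpa using hd2, d.adj⟩

lemma path_lt {V : Type} [Fintype V] (G : SimpleGraph V) (k : ℕ) (hfree : (SimpleGraph.pathGraph k).Free G)
    (l : ℕ) (p : ℕ → V) (hp : IsPath G univ l p) : l < k := by
  by_contra hcon
  push Not at hcon
  apply hfree
  refine ⟨⟨⟨fun i => p i.val, ?_⟩, ?_⟩⟩
  · intro a b hab
    rw [SimpleGraph.pathGraph_adj] at hab
    have ha := a.isLt
    have hb := b.isLt
    rcases hab with h | h
    · rw [← h]; exact hp.2.2 _ (by omega)
    · rw [← h]; exact (hp.2.2 _ (by omega)).symm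
  · intro a b hab
    have ha := a.isLt
    have hb := b.isLt
    exact Fin.ext (hp.2.1 a.val b.val (by omega) (by omega) hab)

lemma card_sd_univ (n : ℕ) : ∀ b, (sd (V := Fin n ⊕ Fin n) sde b univ).card = n := by
  intro b
  cases b with
  | true =>
    have : sd (V := Fin n ⊕ Fin n) sde true univ = univ.image Sum.inl := by
      ext v
      unfold sd sde
      rcases v with v | v <;> simp
    rw [this, card_image_of_injective _ Sum.inl_injective]; simp
  | false =>
    have : sd (V := Fin n ⊕ Fin n) sde false univ = univ.image Sum.inr := by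
      ext v
      unfold sd sde
      rcases v with v | v <;> simp
    rw [this, card_image_of_injective _ Sum.inr_injective]; simp

lemma eS_univ {n : ℕ} (G : SimpleGraph (Fin n ⊕ Fin n)) (hside : ∀ u v, G.Adj u v → sde u ≠ sde v) :
    eS G sde univ = G.edgeSet.ncard := by
  have hbip : G.IsBipartiteWith (↑(sd (V := Fin n ⊕ Fin n) sde true univ) : Set _)
      (↑(sd (V := Fin n ⊕ Fin n) sde false univ) : Set _) := by
    constructor
    · rw [Set.disjoint_left]
      intro v h1 h2
      unfold sd at h1 h2
      simp at h1 h2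
      rw [h1] at h2
      exact absurd h2 (by simp)
    · intro u v huv
      have := hside u v huv
      unfold sd
      simp only [coe_filter, mem_univ, true_and, Set.mem_ofPred_eq]
      revert this
      cases sde u <;> cases sde v <;> simp
  have h1 := SimpleGraph.isBipartiteWith_sum_degrees_eq_card_edges hbip
  have h2 : G.edgeSet.ncard = G.edgeFinset.card := by
    rw [← SimpleGraph.coe_edgeFinset, Set.ncard_coe_finset]
  rw [h2, ← h1]
  unfold eS
  apply Finset.sum_congr rfl
  intro u _
  unfold dg
  rw [← SimpleGraph.card_neighborFinset_eq_degree]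
  congr 1
  ext v
  simp

/-! ## The extremal graph -/

/-- The first `m - 1` vertices on the left are joined to all vertices on the right, and the first
vertex on the right is joined to all vertices on the left. -/
def exG (m n : ℕ) : SimpleGraph (Fin n ⊕ Fin n) where
  Adj v w := match v, w with
    | Sum.inl i, Sum.inr j => i.val < m - 1 ∨ j.val = 0
    | Sum.inr j, Sum.inl i => i.val < m - 1 ∨ j.val = 0
    | _, _ => False
  symm := ⟨by
    intro v w h
    rcases v with v | v <;> rcases w with w | w <;> simp_all⟩
  loopless := ⟨by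
    intro v h
    rcases v with v | v <;> simp_all⟩

lemma exG_lr (m n : ℕ) (i j : Fin n) :
    (exG m n).Adj (Sum.inl i) (Sum.inr j) ↔ (i.val < m - 1 ∨ j.val = 0) := Iff.rfl

lemma exG_rl (m n : ℕ) (i j : Fin n) :
    (exG m n).Adj (Sum.inr j) (Sum.inl i) ↔ (i.val < m - 1 ∨ j.val = 0) := Iff.rfl

lemma exG_ll (m n : ℕ) (i j : Fin n) :
    (exG m n).Adj (Sum.inl i) (Sum.inl j) ↔ False := Iff.rfl

lemma exG_rr (m n : ℕ) (i j : Fin n) :
    (exG m n).Adj (Sum.inr i) (Sum.inr j) ↔ False := Iff.rfl

lemma exG_le (m n : ℕ) : exG m n ≤ completeBipartiteGraph (Fin n) (Fin n) := by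
  intro v w h
  rcases v with v | v <;> rcases w with w | w <;> simp_all [exG, completeBipartiteGraph]

lemma exG_connected (m n : ℕ) (hm : 2 ≤ m) (hn : 1 ≤ n) : (exG m n).Connected := by
  have h0 : (exG m n).Adj (Sum.inl ⟨0, by omega⟩) (Sum.inr ⟨0, by omega⟩) := by simp [exG]
  have hreach : ∀ v, (exG m n).Reachable (Sum.inr ⟨0, by omega⟩) v := by
    intro v
    rcases v with i | j
    · have : (exG m n).Adj (Sum.inr ⟨0, by omega⟩) (Sum.inl i) := by simp [exG]
      exact this.reachable
    · have h1 : (exG m n).Adj (Sum.inl ⟨0, by omega⟩) (Sum.inr j) := by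
        simp only [exG]; left; simp; omega
      exact h0.symm.reachable.trans h1.reachable
  have : Nonempty (Fin n ⊕ Fin n) := ⟨Sum.inr ⟨0, by omega⟩⟩
  exact ⟨fun u v => (hreach u).symm.trans (hreach v)⟩

lemma exG_size (m n : ℕ) (hm : 2 ≤ m) (hmn : m + 1 ≤ n) :
    (exG m n).edgeSet.ncard = m * (n - 1) + 1 := by
  rw [← eS_univ (exG m n) (hside_of_le _ (exG_le m n))]
  unfold eS
  have h1 : sd (V := Fin n ⊕ Fin n) sde true univ = univ.image Sum.inl := by
    ext v
    unfold sd sde
    rcases v with v | v <;> simp
  rw [h1, Finset.sum_image (fun a _ b _ h => Sum.inl_injective h)]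
  have h2 : ∀ i : Fin n, dg (exG m n) univ (Sum.inl i) = if i.val < m - 1 then n else 1 := by
    intro i
    unfold dg
    split_ifs with h
    · have : univ.filter (fun u => (exG m n).Adj (Sum.inl i) u) = univ.image Sum.inr := by
        ext v
        rw [mem_filter, mem_image]
        rcases v with v | v
        · rw [exG_ll]; simp
        · rw [exG_lr]; simp [h]
      rw [this, card_image_of_injective _ Sum.inr_injective]; simp
    · have : univ.filter (fun u => (exG m n).Adj (Sum.inl i) u) = {Sum.inr ⟨0, by omega⟩} := by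
        ext v
        rw [mem_filter, mem_singleton]
        rcases v with v | v
        · rw [exG_ll]; simp
        · rw [exG_lr]
          simp only [mem_univ, true_and, Sum.inr.injEq, Fin.ext_iff]
          constructor
          · rintro (h' | h')
            · exact absurd h' h
            · exact h'
          · intro h'; right; exact h'
      rw [this]; simp
  rw [Finset.sum_congr rfl (fun i _ => h2 i)]
  rw [Fin.sum_univ_eq_sum_range (fun i => if i < m - 1 then n else 1) n]
  rw [Finset.sum_ite, Finset.sum_const, Finset.sum_const]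
  have e1 : (range n).filter (fun i => i < m - 1) = range (m-1) := by
    ext i; simp only [mem_filter, mem_range]; omega
  have e2 : ((range n).filter (fun i => ¬ i < m - 1)).card = n - (m-1) := by
    have : (range n).filter (fun i => ¬ i < m - 1) = Finset.Ico (m-1) n := by
      ext i; simp only [mem_filter, mem_range, Finset.mem_Ico]; omega
    rw [this, Nat.card_Ico]
  rw [e1, e2, card_range, smul_eq_mul, smul_eq_mul, Nat.mul_one]
  obtain ⟨a, rfl⟩ : ∃ a, m = a + 2 := ⟨m-2, by omega⟩
  obtain ⟨b, rfl⟩ : ∃ b, n = a + 2 + 1 + b := ⟨n - (a+2+1), by omega⟩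
  have e3 : a + 2 - 1 = a + 1 := by omega
  have e4 : a + 2 + 1 + b - (a+1) = b + 2 := by omega
  have e5 : a + 2 + 1 + b - 1 = a + 2 + b := by omega
  rw [e3, e4, e5]; ring

/-- counting a predicate hitting every consecutive pair -/
lemma hit (c : ℕ → Prop) (a : ℕ) : ∀ t : ℕ, (∀ i, a ≤ i → i + 1 < a + 2*t → c i ∨ c (i+1)) →
    t ≤ ((Finset.Ico a (a+2*t)).filter c).card := by
  intro t
  induction t with
  | zero => intro _; exact Nat.zero_le _
  | succ t ih =>
    intro h
    have h1 := ih (fun i hi hi' => h i hi (by omega))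
    have h2 := h (a+2*t) (by omega) (by omega)
    obtain ⟨j, hj1, hj2, hj3⟩ : ∃ j, a + 2*t ≤ j ∧ j < a + 2*(t+1) ∧ c j := by
      rcases h2 with h2 | h2
      · exact ⟨a+2*t, le_refl _, by omega, h2⟩
      · exact ⟨a+2*t+1, by omega, by omega, h2⟩
    have hsub : insert j ((Finset.Ico a (a+2*t)).filter c) ⊆ (Finset.Ico a (a+2*(t+1))).filter c := by
      intro i hi
      rw [mem_insert, mem_filter, Finset.mem_Ico] at hi
      rw [mem_filter, Finset.mem_Ico]
      rcases hi with rfl | hi
      · exact ⟨⟨by omega, hj2⟩, hj3⟩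
      · exact ⟨⟨by omega, by omega⟩, hi.2⟩
    have := card_le_card hsub
    rw [Finset.card_insert_of_notMem (by rw [mem_filter, Finset.mem_Ico]; omega)] at this
    omega

lemma exG_path (m n : ℕ) (hm : 2 ≤ m) (hn : m + 1 ≤ n) (p : ℕ → Fin n ⊕ Fin n)
    (hp : IsPath (exG m n) univ (2*m+1) p) : False := by
  have hside := hside_of_le _ (exG_le m n)
  set c : ℕ → Prop := fun i => (∃ a : Fin n, a.val < m - 1 ∧ p i = Sum.inl a) ∨
    p i = Sum.inr ⟨0, by omega⟩ with hc
  have hcons : ∀ i, i + 1 < 2*m+1 → c i ∨ c (i+1) := by
    intro i hi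
    have h := hp.2.2 i hi
    rw [hc]
    simp only
    rcases h1 : p i with a | a <;> rcases h2 : p (i+1) with b | b
    · rw [h1, h2] at h; simp [exG] at h
    · rw [h1, h2] at h
      simp only [exG] at h
      rcases h with h | h
      · left; left; exact ⟨a, h, rfl⟩
      · right; right; simp only [Sum.inr.injEq, Fin.ext_iff]; exact h
    · rw [h1, h2] at h
      simp only [exG] at h
      rcases h with h | h
      · right; left; exact ⟨b, h, rfl⟩
      · left; right; simp only [Sum.inr.injEq, Fin.ext_iff]; exact h
    · rw [h1, h2] at h; simp [exG] at h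
  -- the cover
  set X : Finset (Fin n ⊕ Fin n) := ((univ.filter (fun a : Fin n => a.val < m - 1)).image Sum.inl) ∪
    {Sum.inr ⟨0, by omega⟩} with hX
  have hF : (univ.filter (fun a : Fin n => a.val < m - 1)).card ≤ m - 1 := by
    have : (univ.filter (fun a : Fin n => a.val < m - 1)).card ≤ (range (m-1)).card := by
      apply Finset.card_le_card_of_injOn (fun a => a.val)
      · intro a ha
        simp only [coe_filter, mem_univ, true_and, Set.mem_ofPred_eq] at ha
        simpa using ha
      · intro a _ b _ hab
        exact Fin.ext hab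
    simpa using this
  have hXc : X.card ≤ m := by
    rw [hX]
    refine (card_union_le _ _).trans ?_
    rw [card_singleton]
    have h2 := (card_image_le (s := univ.filter (fun a : Fin n => a.val < m - 1))
      (f := (Sum.inl : Fin n → Fin n ⊕ Fin n))).trans hF
    refine (Nat.add_le_add_right h2 1).trans ?_
    omega
  have hcX : ∀ i, c i → p i ∈ X := by
    intro i hi
    rw [hX, mem_union, mem_image, mem_singleton]
    rcases hi with ⟨a, ha, hpa⟩ | hi
    · left; exact ⟨a, by simpa using ha, hpa.symm⟩
    · right; exact hi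
  have hcount : ((range (2*m+1)).filter c).card ≤ m := by
    refine le_trans ?_ hXc
    apply Finset.card_le_card_of_injOn p
    · intro i hi
      simp only [coe_filter, mem_range, Set.mem_ofPred_eq] at hi
      exact hcX i hi.2
    · intro i hi j hj hij
      simp only [coe_filter, mem_range, Set.mem_ofPred_eq] at hi hj
      exact hp.2.1 i j hi.1 hj.1 hij
  -- even positions are not in the cover
  have heven : ∀ t, t ≤ m → ¬ c (2*t) := by
    intro t ht hct
    have h1 : t ≤ ((Finset.Ico 0 (0+2*t)).filter c).card := by
      convert hit c 0 t (fun i _ hi => hcons i (by omega))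
    have h2 : m - t ≤ ((Finset.Ico (2*t+1) (2*t+1+2*(m-t))).filter c).card := by
      convert hit c (2*t+1) (m-t) (fun i _ hi => hcons i (by omega))
    have hsub : insert (2*t) (((Finset.Ico 0 (0+2*t)).filter c) ∪
        ((Finset.Ico (2*t+1) (2*t+1+2*(m-t))).filter c)) ⊆ (range (2*m+1)).filter c := by
      intro i hi
      rw [mem_insert, mem_union, mem_filter, mem_filter, Finset.mem_Ico, Finset.mem_Ico] at hi
      rw [mem_filter, mem_range]
      rcases hi with rfl | hi | hi
      · exact ⟨by omega, hct⟩
      · exact ⟨by omega, hi.2⟩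
      · exact ⟨by omega, hi.2⟩
    have h3 := card_le_card hsub
    rw [Finset.card_insert_of_notMem, Finset.card_union_of_disjoint] at h3
    · omega
    · rw [Finset.disjoint_left]
      intro i hi hi'
      rw [mem_filter, Finset.mem_Ico] at hi hi'
      omega
    · rw [mem_union, mem_filter, mem_filter, Finset.mem_Ico, Finset.mem_Ico]
      omega
  have hodd : ∀ t, t < m → c (2*t+1) := by
    intro t ht
    rcases hcons (2*t) (by omega) with h | h
    · exact absurd h (heven t (by omega))
    · exact h
  have hsp := side_path (exG m n) sde hside univ (2*m+1) p hp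
  have hsame : ∀ t, t < m → sde (p (2*t+1)) = sde (p 1) := by
    intro t ht
    have e1 := hsp (2*t+1) (by omega)
    have e2 := hsp 1 (by omega)
    have e3 : ¬ (sde (p (2*t+1)) = sde (p 0)) := by rw [e1]; omega
    have e4 : ¬ (sde (p 1) = sde (p 0)) := by rw [e2]; omega
    revert e3 e4
    cases sde (p (2*t+1)) <;> cases sde (p 1) <;> cases sde (p 0) <;> simp
  cases hs : sde (p 1) with
  | false =>
    -- positions 1 and 3 are both the right cover vertex
    have key : ∀ t, t < m → p (2*t+1) = Sum.inr ⟨0, by omega⟩ := by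
      intro t ht
      rcases hodd t ht with ⟨a, _, hpa⟩ | h
      · have := hsame t ht
        rw [hpa, hs] at this
        simp [sde] at this
      · exact h
    have := hp.2.1 1 3 (by omega) (by omega) (by rw [key 0 (by omega), key 1 (by omega)])
    omega
  | true =>
    have key : ∀ t, t < m → ∃ a : Fin n, a.val < m - 1 ∧ p (2*t+1) = Sum.inl a := by
      intro t ht
      rcases hodd t ht with h | h
      · exact h
      · have := hsame t ht
        rw [h, hs] at this
        simp [sde] at this
    have : (range m).card ≤ ((univ.filter (fun a : Fin n => a.val < m - 1)).image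
        (Sum.inl : Fin n → Fin n ⊕ Fin n)).card := by
      apply Finset.card_le_card_of_injOn (fun t => p (2*t+1))
      · intro t ht
        simp only [coe_range, Set.mem_Iio] at ht
        obtain ⟨a, ha, hpa⟩ := key t ht
        simp only [coe_image, Set.mem_image, coe_filter, mem_univ, true_and, Set.mem_ofPred_eq]
        exact ⟨a, ha, hpa.symm⟩
      · intro t ht s hs' hts
        simp only [coe_range, Set.mem_Iio] at ht hs'
        have := hp.2.1 _ _ (by omega) (by omega) hts
        omega
    rw [card_range] at this
    have h2 := this.trans (card_image_le.trans hF)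
    omega

lemma exG_free (m n k : ℕ) (hm : 2 ≤ m) (hn : m + 1 ≤ n) (hk : 2*m+1 ≤ k) :
    (SimpleGraph.pathGraph k).Free (exG m n) := by
  rintro ⟨f⟩
  apply exG_path m n hm hn (fun i => if h : i < k then f ⟨i, h⟩ else Sum.inr ⟨0, by omega⟩)
  refine ⟨fun _ _ => mem_univ _, ?_, ?_⟩
  · intro i j hi hj hij
    have h1 : i < k := by omega
    have h2 : j < k := by omega
    simp only [h1, h2, dif_pos] at hij
    have := f.injective' hij
    simpa using this
  · intro i hi
    have h1 : i < k := by omega
    have h2 : i + 1 < k := by omega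
    simp only [h1, h2, dif_pos]
    apply f.toHom.map_rel
    rw [SimpleGraph.pathGraph_adj]
    left; rfl

/-- **Main theorem.** For every `k ≥ 5` and every `n` with `k ≤ 2n` the number
`⌊(k-1)/2⌋ (n-1) + 1` is the maximum number of edges of a connected spanning subgraph of `K_{n,n}`
without a path on `k` vertices. -/
theorem result : ∀ k n : ℕ, 5 ≤ k → k ≤ 2 * n →
    IsGreatest (sizes n k) ((k-1)/2 * (n-1) + 1) ∧ exbc n k = (k-1)/2 * (n-1) + 1 := by
  intro k n hk hkn
  have hg : IsGreatest (sizes n k) ((k-1)/2 * (n-1) + 1) := by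
    constructor
    · exact ⟨exG ((k-1)/2) n, exG_le _ _, exG_connected _ _ (by omega) (by omega),
        exG_free _ _ _ (by omega) (by omega) (by omega),
        (exG_size _ _ (by omega) (by omega)).symm⟩
    · rintro e ⟨G, hG, hconn, hfree, rfl⟩
      have hside := hside_of_le G hG
      rw [← eS_univ G hside]
      apply upper2 G sde hside ((k-1)/2) (by omega) n (by omega) univ (Conn_of_connected G hconn)
        (card_sd_univ n)
      intro l p hp
      have := path_lt G k hfree l p hp
      omega
  exact ⟨hg, hg.csSup_eq⟩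

end Pool.Agent.Results.MP_792a66_co.ExactValue
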