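import Pool.Agent.R90.CB.Final
import Pool.Agent.R90.CB.T
import Pool.Agent.R90.CB.S
import Pool.Agent.R90.CB.V
import Pool.Agent.R90.CB.L
import Pool.Agent.R90.CB.LB

set_option autoImplicit false

/-!
Connected bipartite Turan numbers of paths: for every `k ≥ 5`,
`ex_{b,c}(n, P_k) = ⌊(k-1)/2⌋ n + O_k(1)`.
-/

namespace Pool.Agent.Results.MP_792a66_co.PathTuran

open SimpleGraph Filter Asymptotics

/-- `ex_{b,c}(n, P_k)`: the maximum number of edges of a connected spanning subgraph of `K_{n,n}`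
(with parts the two copies of `Fin n`) that contains no copy of the path `P_k` on `k` vertices. -/
noncomputable def exbc (n k : ℕ) : ℕ :=
  sSup {m | ∃ G : SimpleGraph (Fin n ⊕ Fin n), G ≤ completeBipartiteGraph (Fin n) (Fin n) ∧
    G.Connected ∧ ¬ (pathGraph k) ⊑ G ∧ G.edgeSet.ncard = m}

/-- **For every `k ≥ 5`, `ex_{b,c}(n, P_k) = ⌊(k-1)/2⌋ n + O(1)`**; in particular it is
asymptotic to `⌊(k-1)/2⌋ n`.  The first two parts say that `exbc n k` is really a maximum. -/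
theorem result (k : ℕ) (hk : 5 ≤ k) :
    (∀ n, k ≤ n → (∃ G : SimpleGraph (Fin n ⊕ Fin n),
      G ≤ completeBipartiteGraph (Fin n) (Fin n) ∧ G.Connected ∧ ¬ (pathGraph k) ⊑ G ∧
      G.edgeSet.ncard = exbc n k)) ∧
    (∀ n, k ≤ n → ∀ G : SimpleGraph (Fin n ⊕ Fin n),
      G ≤ completeBipartiteGraph (Fin n) (Fin n) → G.Connected → ¬ (pathGraph k) ⊑ G →
      G.edgeSet.ncard ≤ exbc n k) ∧
    (∃ C : ℕ, ∀ n, k ≤ n → (k - 1) / 2 * n - ((k - 1) / 2 - 1) ≤ exbc n k ∧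
      exbc n k ≤ (k - 1) / 2 * n + C) ∧
    (fun n : ℕ => (exbc n k : ℝ)) ~[atTop] (fun n : ℕ => (((k - 1) / 2 : ℕ) : ℝ) * n) :=
  R90.CB.final R90.CB.t_lem R90.CB.s_lem R90.CB.v_lem R90.CB.l_lem R90.CB.lb_lem k hk

end Pool.Agent.Results.MP_792a66_co.PathTuran
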